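import Pool.Agent.Q187.PS.Stm

set_option autoImplicit false
set_option linter.unusedSectionVars false

open MeasureTheory Set Filter Topology Metric
open scoped RealInnerProductSpace ENNReal NNReal

namespace Q224.PS

open Pool.Agent.H318R3.St Q187.Steiner Q187.PS

lemma symf_le_add {M L ρ : ℝ} {g h : V2 → ℝ} (hg : Adm M L ρ g) (hh : Adm M L ρ h) {ε : ℝ}
    (hε : 0 ≤ ε) (hle : ∀ x, g x ≤ h x + ε) {u : V2} (hu : ‖u‖ = 1) (x : V2) :
    symf u g x ≤ symf u h x + ε := by
  by_cases hs : symf u g x ≤ ε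
  · linarith [symf_nonneg hh u x]
  push Not at hs
  have h1 := (le_symf_iff hg hu (by linarith) x).1 le_rfl
  have hsub : lev g (symf u g x) ⊆ lev h (symf u g x - ε) := by
    intro y hy
    have h2 : symf u g x ≤ g y := hy
    show symf u g x - ε ≤ h y
    linarith [hle y]
  have h3 := sym_mono hu hsub (hh.lev_compact (by linarith)) h1
  have h4 := (le_symf_iff hh hu (by linarith) x).2 h3
  linarith

/-- The symmetral and the moment depend in a Lipschitz way on the function. -/
theorem cont : S_Cont := by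
  intro M L ρ g h hM hL hρ hg hh ε hε hgh
  have h1 : ∀ x, g x ≤ h x + ε := fun x => by linarith [(abs_le.1 (hgh x)).2]
  have h2 : ∀ x, h x ≤ g x + ε := fun x => by linarith [(abs_le.1 (hgh x)).1]
  refine ⟨fun u hu x => ?_, ?_⟩
  · rw [abs_le]
    constructor
    · linarith [symf_le_add hh hg hε h2 hu x]
    · linarith [symf_le_add hg hh hε h1 hu x]
  · have hpt : ∀ x : V2, ENNReal.ofReal (‖x‖ ^ 2) * ENNReal.ofReal (g x) ≤
        ENNReal.ofReal (‖x‖ ^ 2) * ENNReal.ofReal (h x) +
          (closedBall (0 : V2) ρ).indicator (fun _ => ENNReal.ofReal (ρ ^ 2 * ε)) x := by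
      intro x
      by_cases hx : x ∈ closedBall (0 : V2) ρ
      · rw [indicator_of_mem hx]
        rw [mem_closedBall_zero_iff] at hx
        have h3 : ENNReal.ofReal (g x) ≤ ENNReal.ofReal (h x) + ENNReal.ofReal ε :=
          (ENNReal.ofReal_le_ofReal (h1 x)).trans ENNReal.ofReal_add_le
        calc ENNReal.ofReal (‖x‖ ^ 2) * ENNReal.ofReal (g x)
            ≤ ENNReal.ofReal (‖x‖ ^ 2) * (ENNReal.ofReal (h x) + ENNReal.ofReal ε) := by gcongr
          _ = ENNReal.ofReal (‖x‖ ^ 2) * ENNReal.ofReal (h x) +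
              ENNReal.ofReal (‖x‖ ^ 2) * ENNReal.ofReal ε := mul_add _ _ _
          _ ≤ ENNReal.ofReal (‖x‖ ^ 2) * ENNReal.ofReal (h x) +
              ENNReal.ofReal (ρ ^ 2 * ε) := by
              rw [ENNReal.ofReal_mul (by positivity : 0 ≤ ρ ^ 2)]
              gcongr
      · rw [mem_closedBall_zero_iff, not_le] at hx
        rw [hg.out x hx]
        simp
    unfold Q187.PS.mom
    calc ∫⁻ x, ENNReal.ofReal (‖x‖ ^ 2) * ENNReal.ofReal (g x)
        ≤ ∫⁻ x, (ENNReal.ofReal (‖x‖ ^ 2) * ENNReal.ofReal (h x) +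
            (closedBall (0 : V2) ρ).indicator (fun _ => ENNReal.ofReal (ρ ^ 2 * ε)) x) :=
          lintegral_mono hpt
      _ = (∫⁻ x, ENNReal.ofReal (‖x‖ ^ 2) * ENNReal.ofReal (h x)) +
            ∫⁻ x, (closedBall (0 : V2) ρ).indicator (fun _ => ENNReal.ofReal (ρ ^ 2 * ε)) x :=
          lintegral_add_right _ (measurable_const.indicator measurableSet_closedBall)
      _ = _ := by
          rw [lintegral_indicator measurableSet_closedBall, setLIntegral_const]

end Q224.PS
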