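import Pool.Agent.Q187.PS.Stm

set_option autoImplicit false
set_option linter.unusedSectionVars false

open MeasureTheory Set Filter Topology Metric
open scoped RealInnerProductSpace ENNReal NNReal

namespace Q224.PS

open Pool.Agent.H318R3.St Q187.Steiner Q187.PS

lemma lin_dir (f : V2 →L[ℝ] ℝ) (θ : ℝ) :
    f (dir θ) = Real.cos θ * f (EuclideanSpace.single 0 1) +
      Real.sin θ * f (EuclideanSpace.single 1 1) := by
  have h : dir θ = Real.cos θ • EuclideanSpace.single 0 (1 : ℝ) +
      Real.sin θ • EuclideanSpace.single 1 (1 : ℝ) := by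
    ext i
    fin_cases i <;> simp [dir]
  rw [h, map_add, map_smul, map_smul, smul_eq_mul, smul_eq_mul]

lemma lin_zero (f : V2 →L[ℝ] ℝ) (h0 : f (EuclideanSpace.single 0 1) = 0)
    (h1 : f (EuclideanSpace.single 1 1) = 0) : f = 0 := by
  ext v
  have h : v = v 0 • EuclideanSpace.single 0 (1 : ℝ) + v 1 • EuclideanSpace.single 1 (1 : ℝ) := by
    ext i
    fin_cases i <;> simp
  rw [h, map_add, map_smul, map_smul, h0, h1]
  simp

/-- All but countably many directions are generic. -/
theorem gen : S_Gen := by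
  intro M L ρ g hg
  let A : Ico (0 : ℝ) Real.pi → Set V2 :=
    fun θ => {x | fderiv ℝ g x (dir θ) = 0 ∧ fderiv ℝ g x ≠ 0}
  have hmeas : ∀ θ, MeasurableSet (A θ) := by
    intro θ
    have h1 : Measurable (fun x => fderiv ℝ g x (dir θ)) := measurable_fderiv_apply_const ℝ g _
    have h2 : Measurable (fderiv ℝ g) := measurable_fderiv ℝ g
    exact (h1 (measurableSet_singleton 0)).inter (h2 (measurableSet_singleton 0)).compl
  have hdisj : Pairwise (Function.onFun Disjoint A) := by
    intro θ θ' hne
    rw [Function.onFun, Set.disjoint_left]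
    rintro x ⟨h1, h2⟩ ⟨h3, -⟩
    apply h2
    rw [lin_dir] at h1 h3
    set a := fderiv ℝ g x (EuclideanSpace.single 0 1)
    set b := fderiv ℝ g x (EuclideanSpace.single 1 1)
    have hs : Real.sin ((θ' : ℝ) - θ) ≠ 0 := by
      intro h
      have hlt1 : -Real.pi < (θ' : ℝ) - θ := by linarith [θ'.2.1, θ.2.2]
      have hlt2 : (θ' : ℝ) - θ < Real.pi := by linarith [θ'.2.2, θ.2.1]
      rw [Real.sin_eq_zero_iff_of_lt_of_lt hlt1 hlt2] at h
      exact hne (Subtype.ext (by linarith))
    rw [Real.sin_sub] at hs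
    apply lin_zero
    · have : a * (Real.sin θ' * Real.cos θ - Real.cos θ' * Real.sin θ) = 0 := by
        linear_combination Real.sin θ' * h1 - Real.sin θ * h3
      rcases mul_eq_zero.1 this with h | h
      · exact h
      · exact absurd h hs
    · have : b * (Real.sin θ' * Real.cos θ - Real.cos θ' * Real.sin θ) = 0 := by
        linear_combination Real.cos θ * h3 - Real.cos θ' * h1
      rcases mul_eq_zero.1 this with h | h
      · exact h
      · exact absurd h hs
  have hc := Measure.countable_meas_pos_of_disjoint_iUnion (μ := (volume : Measure V2)) hmeas hdisj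
  refine (hc.image (fun θ : Ico (0 : ℝ) Real.pi => (θ : ℝ))).mono ?_
  rintro θ ⟨hθ, hgen⟩
  refine ⟨⟨θ, hθ⟩, ?_, rfl⟩
  rw [mem_ofPred_eq, pos_iff_ne_zero]
  intro h
  apply hgen
  unfold Gen
  rw [ae_iff]
  convert h using 2
  ext x
  simp only [A, mem_ofPred_eq]
  tauto

end Q224.PS
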