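import Pool.Agent.Q187.PS.Stm

set_option autoImplicit false
set_option linter.unusedSectionVars false

open MeasureTheory Set Filter Topology Metric
open scoped RealInnerProductSpace ENNReal NNReal

namespace Q224.PS

open Pool.Agent.H318R3.St Q187.Steiner Q187.PS

lemma mom_layer {M L ρ : ℝ} {g : V2 → ℝ} (hg : Adm M L ρ g) :
    mom g = ∫⁻ s in Ioi (0 : ℝ), im (lev g s) := by
  have hgc := hg.continuous
  set Φ : V2 × ℝ → ℝ≥0∞ := {p : V2 × ℝ | 0 < p.2 ∧ p.2 ≤ g p.1}.indicator
    (fun p => ENNReal.ofReal (‖p.1‖ ^ 2)) with hΦ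
  have hS : MeasurableSet {p : V2 × ℝ | 0 < p.2 ∧ p.2 ≤ g p.1} := by
    refine (measurableSet_lt measurable_const measurable_snd).inter ?_
    exact measurableSet_le measurable_snd (hgc.measurable.comp measurable_fst)
  have hΦm : Measurable Φ := by
    refine Measurable.indicator ?_ hS
    exact ((continuous_norm.comp continuous_fst).pow 2).measurable.ennreal_ofReal
  have h1 : ∀ x : V2, ∫⁻ s : ℝ, Φ (x, s) = ENNReal.ofReal (‖x‖ ^ 2) * ENNReal.ofReal (g x) := by
    intro x
    have : ∀ s : ℝ, Φ (x, s) = (Ioc 0 (g x)).indicator (fun _ => ENNReal.ofReal (‖x‖ ^ 2)) s := by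
      intro s
      by_cases hs : s ∈ Ioc 0 (g x)
      · rw [indicator_of_mem hs, hΦ, indicator_of_mem (show (x, s) ∈ {p : V2 × ℝ | 0 < p.2 ∧ p.2 ≤ g p.1} from ⟨hs.1, hs.2⟩)]
      · rw [indicator_of_notMem hs, hΦ, indicator_of_notMem]
        intro h
        exact hs ⟨h.1, h.2⟩
    simp_rw [this]
    rw [lintegral_indicator measurableSet_Ioc, setLIntegral_const, Real.volume_Ioc, sub_zero]
  have h2 : ∀ s : ℝ, ∫⁻ x : V2, Φ (x, s) = (Ioi (0 : ℝ)).indicator (fun s => im (lev g s)) s := by
    intro s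
    by_cases hs : s ∈ Ioi (0 : ℝ)
    · rw [indicator_of_mem hs]
      unfold im
      rw [← lintegral_indicator (hg.lev_closed s).measurableSet]
      refine lintegral_congr fun x => ?_
      by_cases hx : x ∈ lev g s
      · rw [indicator_of_mem hx, hΦ, indicator_of_mem (show (x, s) ∈ {p : V2 × ℝ | 0 < p.2 ∧ p.2 ≤ g p.1} from ⟨hs, hx⟩)]
      · rw [indicator_of_notMem hx, hΦ, indicator_of_notMem]
        intro h
        exact hx h.2
    · rw [indicator_of_notMem hs]
      refine (lintegral_congr fun x => ?_).trans (lintegral_zero)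
      rw [hΦ, indicator_of_notMem]
      intro h
      exact hs h.1
  unfold mom
  rw [← lintegral_indicator measurableSet_Ioi]
  simp_rw [← h1, ← h2]
  exact lintegral_lintegral_swap hΦm.aemeasurable

lemma mom_lt_top {M L ρ : ℝ} {g : V2 → ℝ} (hg : Adm M L ρ g) : mom g < ⊤ := by
  have hpt : ∀ x : V2, ENNReal.ofReal (‖x‖ ^ 2) * ENNReal.ofReal (g x) ≤
      (closedBall (0 : V2) ρ).indicator (fun _ => ENNReal.ofReal (ρ ^ 2) * ENNReal.ofReal M) x := by
    intro x
    by_cases hx : x ∈ closedBall (0 : V2) ρ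
    · rw [indicator_of_mem hx]
      rw [mem_closedBall_zero_iff] at hx
      have := hg.le x
      gcongr
    · rw [mem_closedBall_zero_iff, not_le] at hx
      rw [hg.out x hx]
      simp
  unfold mom
  refine (lintegral_mono hpt).trans_lt ?_
  rw [lintegral_indicator measurableSet_closedBall, setLIntegral_const]
  exact ENNReal.mul_lt_top (ENNReal.mul_lt_top ENNReal.ofReal_lt_top ENNReal.ofReal_lt_top)
    (isCompact_closedBall _ _).measure_lt_top

/-- Between two numbers there is a good level. -/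
lemma good_level {P : ℝ → Prop} (h : ∀ᵐ s ∂(volume.restrict (Ioi (0 : ℝ))), P s) {a b : ℝ}
    (ha : 0 ≤ a) (hab : a < b) : ∃ s, a < s ∧ s < b ∧ P s := by
  by_contra hcon
  push Not at hcon
  rw [ae_restrict_iff' measurableSet_Ioi, ae_iff] at h
  have hsub : Ioo a b ⊆ {s | ¬ (s ∈ Ioi (0 : ℝ) → P s)} := by
    intro s hs
    rw [mem_ofPred_eq]
    intro h2
    exact hcon s hs.1 hs.2 (h2 (show (0 : ℝ) < s from lt_of_le_of_lt ha hs.1))
  have h3 := measure_mono_null hsub h
  rw [Real.volume_Ioo, ENNReal.ofReal_eq_zero] at h3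
  linarith

/-- The moment does not go up; equality only for invariant functions. -/
theorem mom : S_Mom := by
  intro M L ρ g hM hL hρ hg u hu
  have hgs : Adm M L ρ (symf u g) := Adm.symf hM hL hρ hg hu
  have e1 := mom_layer hg
  have e2 := mom_layer hgs
  have e3 : ∫⁻ s in Ioi (0 : ℝ), im (lev (symf u g) s)
      = ∫⁻ s in Ioi (0 : ℝ), im (sym u (lev g s)) := by
    refine setLIntegral_congr_fun measurableSet_Ioi fun s hs => ?_
    simp only
    rw [lev_symf hg hu hs]
  have hle : ∀ s ∈ Ioi (0 : ℝ), im (sym u (lev g s)) ≤ im (lev g s) := fun s hs =>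
    im_sym_le hu (hg.lev_compact hs)
  have hmono : Q187.PS.mom (symf u g) ≤ Q187.PS.mom g := by
    rw [e1, e2, e3]
    exact setLIntegral_mono' measurableSet_Ioi hle
  refine ⟨hmono, fun hge => ?_⟩
  have hanti : Antitone (fun s : ℝ => im (lev g s)) := by
    intro s t hst
    exact lintegral_mono_set (lev_anti g hst)
  have hae : (fun s => im (sym u (lev g s))) =ᵐ[volume.restrict (Ioi (0 : ℝ))]
      fun s => im (lev g s) := by
    refine ae_eq_of_ae_le_of_lintegral_le ?_ ?_ hanti.measurable.aemeasurable ?_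
    · rw [Filter.EventuallyLE, ae_restrict_iff' measurableSet_Ioi]
      exact Eventually.of_forall hle
    · rw [← e3, ← e2]
      exact (mom_lt_top hgs).ne
    · rw [← e1, ← e3, ← e2]
      exact hge
  have hgood : ∀ᵐ s ∂(volume.restrict (Ioi (0 : ℝ))),
      volume (lev g s \ sym u (lev g s)) = 0 ∧ volume (sym u (lev g s) \ lev g s) = 0 := by
    have h0 : ∀ᵐ s ∂(volume.restrict (Ioi (0 : ℝ))), s ∈ Ioi (0 : ℝ) :=
      ae_restrict_mem measurableSet_Ioi
    filter_upwards [hae, h0] with s hs hs0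
    have hK := hg.lev_compact hs0
    have h1 := im_sym_eq hu hK hs.ge
    refine ⟨h1, ?_⟩
    have hS := sym_compact hu hK
    have h2 := measure_inter_add_sdiff (μ := volume) (lev g s) hS.measurableSet
    have h3 := measure_inter_add_sdiff (μ := volume) (sym u (lev g s)) hK.measurableSet
    rw [h1, add_zero] at h2
    rw [inter_comm, h2, sym_vol hu hK] at h3
    have h4 : volume (lev g s) + volume (sym u (lev g s) \ lev g s) = volume (lev g s) + 0 := by
      rw [h3, add_zero]
    exact (ENNReal.add_right_inj hK.measure_lt_top.ne).1 h4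
  have hopen : ∀ f k : V2 → ℝ, Continuous f → Continuous k → ∀ s x, f x < s → s < k x →
      volume (lev k s \ lev f s) ≠ 0 := by
    intro f k hf hk s x h1 h2 h3
    have hO : IsOpen ({y | f y < s} ∩ {y | s < k y}) :=
      (isOpen_lt hf continuous_const).inter (isOpen_lt continuous_const hk)
    have hpos := hO.measure_pos volume ⟨x, h1, h2⟩
    have hsub : {y | f y < s} ∩ {y | s < k y} ⊆ lev k s \ lev f s := by
      rintro y ⟨hy1, hy2⟩
      exact ⟨le_of_lt (show s < k y from hy2), fun h => absurd (show f y < s from hy1) (not_lt.2 h)⟩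
    exact hpos.ne' (measure_mono_null hsub h3)
  funext x
  rcases lt_trichotomy (symf u g x) (g x) with h | h | h
  · exfalso
    obtain ⟨s, hs1, hs2, hs3, hs4⟩ := good_level hgood (hgs.nonneg x) h
    have hs0 : 0 < s := lt_of_le_of_lt (hgs.nonneg x) hs1
    rw [← lev_symf hg hu hs0] at hs3
    exact hopen _ _ hgs.continuous hg.continuous s x hs1 hs2 hs3
  · exact h
  · exfalso
    obtain ⟨s, hs1, hs2, hs3, hs4⟩ := good_level hgood (hg.nonneg x) h
    have hs0 : 0 < s := lt_of_le_of_lt (hg.nonneg x) hs1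
    rw [← lev_symf hg hu hs0] at hs4
    exact hopen _ _ hg.continuous hgs.continuous s x hs1 hs2 hs4

end Q224.PS
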